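import Mathlib
import Pool.Agent.R945.LD.BThree

set_option autoImplicit false

namespace Pool.Agent.K6.H70.LD

open Finset

lemma sum_fold_odd {M : Type*} [AddCommMonoid M] (F : ℕ → M) (r : ℕ) :
    ∑ k ∈ range (2 * r + 1), F k = ∑ k ∈ range r, (F k + F (2 * r - k)) + F r := by
  have e : 2 * r + 1 = r + (r + 1) := by ring
  rw [e, Finset.sum_range_add, Finset.sum_add_distrib, add_assoc]
  congr 1
  rw [← Finset.sum_range_reflect, Finset.sum_range_succ]
  congr 1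
  · apply Finset.sum_congr rfl
    intro k hk
    rw [Finset.mem_range] at hk
    congr 1
    omega
  · congr 1
    omega

lemma sum_fold_even {M : Type*} [AddCommMonoid M] (F : ℕ → M) (r : ℕ) :
    ∑ k ∈ range (2 * r + 2), F k = ∑ k ∈ range (r + 1), (F k + F (2 * r + 1 - k)) := by
  have e : 2 * r + 2 = (r + 1) + (r + 1) := by ring
  rw [e, Finset.sum_range_add, Finset.sum_add_distrib]
  congr 1
  rw [← Finset.sum_range_reflect]
  apply Finset.sum_congr rfl
  intro k hk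
  rw [Finset.mem_range] at hk
  congr 1
  omega

lemma prod_fold_odd (F : ℕ → ℤ) (r : ℕ) :
    ∏ k ∈ range (2 * r + 1), F k = (∏ k ∈ range r, (F k * F (2 * r - k))) * F r := by
  have e : 2 * r + 1 = r + (r + 1) := by ring
  rw [e, Finset.prod_range_add, Finset.prod_mul_distrib, mul_assoc]
  congr 1
  rw [← Finset.prod_range_reflect, Finset.prod_range_succ]
  congr 1
  · apply Finset.prod_congr rfl
    intro k hk
    rw [Finset.mem_range] at hk
    congr 1
    omega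
  · congr 1
    omega

lemma prod_fold_even (F : ℕ → ℤ) (r : ℕ) :
    ∏ k ∈ range (2 * r + 2), F k = ∏ k ∈ range (r + 1), (F k * F (2 * r + 1 - k)) := by
  have e : 2 * r + 2 = (r + 1) + (r + 1) := by ring
  rw [e, Finset.prod_range_add, Finset.prod_mul_distrib]
  congr 1
  rw [← Finset.prod_range_reflect]
  apply Finset.prod_congr rfl
  intro k hk
  rw [Finset.mem_range] at hk
  congr 1
  omega

/-- partial sums -/
def S (c : ℕ → ℤ) (t : ℕ) : ℤ := ∑ i ∈ range (t + 1), c i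

lemma S_succ (c : ℕ → ℤ) (t : ℕ) : S c (t + 1) = S c t + c (t + 1) := by
  unfold S; rw [Finset.sum_range_succ]

/-- the sum of `c k c i` over `k + i ≤ M` -/
def P (c : ℕ → ℤ) (M : ℕ) : ℤ := ∑ k ∈ range M, c (k + 1) * S c (M - (k + 1))

/-- the sum of `c k c i` over `k + i = M + 1` -/
def A (c : ℕ → ℤ) (M : ℕ) : ℤ := ∑ k ∈ range M, c (k + 1) * c (M - k)

lemma P_succ (c : ℕ → ℤ) (h0 : c 0 = 0) (M : ℕ) : P c (M + 1) = P c M + A c M := by
  unfold P A
  rw [Finset.sum_range_succ, ← Finset.sum_add_distrib]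
  have e : S c (M + 1 - (M + 1)) = 0 := by
    rw [Nat.sub_self]; unfold S; simp [h0]
  rw [e, mul_zero, add_zero]
  apply Finset.sum_congr rfl
  intro k hk
  rw [Finset.mem_range] at hk
  have e1 : M + 1 - (k + 1) = (M - (k + 1)) + 1 := by omega
  have e2 : M - (k + 1) + 1 = M - k := by omega
  rw [e1, S_succ, e2]
  ring

lemma A_odd (c : ℕ → ℤ) (r : ℕ) :
    A c (2 * r + 1) = 2 * ∑ k ∈ range r, c (k + 1) * c (2 * r + 1 - k) + c (r + 1) * c (r + 1) := by
  unfold A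
  rw [sum_fold_odd, Finset.mul_sum]
  congr 1
  · apply Finset.sum_congr rfl
    intro k hk
    rw [Finset.mem_range] at hk
    have e1 : 2 * r - k + 1 = 2 * r + 1 - k := by omega
    have e2 : 2 * r + 1 - (2 * r - k) = k + 1 := by omega
    rw [e1, e2]
    ring
  · have e1 : 2 * r + 1 - r = r + 1 := by omega
    rw [e1]

lemma A_even (c : ℕ → ℤ) (r : ℕ) :
    A c (2 * r + 2) = 2 * ∑ k ∈ range (r + 1), c (k + 1) * c (2 * r + 2 - k) := by
  unfold A
  rw [sum_fold_even, Finset.mul_sum]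
  apply Finset.sum_congr rfl
  intro k hk
  rw [Finset.mem_range] at hk
  have e1 : 2 * r + 1 - k + 1 = 2 * r + 2 - k := by omega
  have e2 : 2 * r + 2 - (2 * r + 1 - k) = k + 1 := by omega
  rw [e1, e2]
  ring

/-- The two-step recursion modulo `8`. -/
lemma step (c : ℕ → ℤ) (h0 : c 0 = 0) (r : ℕ) (hc : ∀ k, 1 ≤ k → k ≤ 2 * r + 3 → c k = 1 ∨ c k = -1)
    (h2 : c (2 * (r + 1)) = c 2 * c (r + 1)) :
    (8 : ℤ) ∣ P c (2 * r + 3) - (P c (2 * r + 1) + 4 * r + 2 * c 2 + 1) := by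
  have e1 : P c (2 * r + 3) = P c (2 * r + 1) + A c (2 * r + 1) + A c (2 * r + 2) := by
    rw [show 2 * r + 3 = (2 * r + 2) + 1 by ring, P_succ c h0, show 2 * r + 2 = (2 * r + 1) + 1 by ring,
      P_succ c h0]
  have pm : ∀ a b : ℤ, (a = 1 ∨ a = -1) → (b = 1 ∨ b = -1) → (a * b = 1 ∨ a * b = -1) := by
    intro a b ha hb
    rcases ha with rfl | rfl <;> rcases hb with rfl | rfl <;> simp
  have hcr := hc (r + 1) (by omega) (by omega)
  have hsq : c (r + 1) * c (r + 1) = 1 := by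
    rcases hcr with h | h <;> rw [h] <;> norm_num
  have ha := Pool.Agent.R945.LD.prod_pm_mod_four (range r) (fun k => c (k + 1) * c (2 * r + 1 - k)) (by
    intro k hk
    rw [Finset.mem_range] at hk
    exact pm _ _ (hc _ (by omega) (by omega)) (hc _ (by omega) (by omega)))
  have hb := Pool.Agent.R945.LD.prod_pm_mod_four (range (r + 1)) (fun k => c (k + 1) * c (2 * r + 2 - k)) (by
    intro k hk
    rw [Finset.mem_range] at hk
    exact pm _ _ (hc _ (by omega) (by omega)) (hc _ (by omega) (by omega)))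
  rw [Finset.card_range] at ha hb
  set Sa := ∑ k ∈ range r, c (k + 1) * c (2 * r + 1 - k) with hSa
  set Sb := ∑ k ∈ range (r + 1), c (k + 1) * c (2 * r + 2 - k) with hSb
  set Pa := ∏ k ∈ range r, c (k + 1) * c (2 * r + 1 - k) with hPa
  set Pb := ∏ k ∈ range (r + 1), c (k + 1) * c (2 * r + 2 - k) with hPb
  have f1 : ∏ k ∈ range (2 * r + 1), c (k + 1) = Pa * c (r + 1) := by
    rw [prod_fold_odd (fun k => c (k + 1))]
    congr 1
    rw [hPa]
    apply Finset.prod_congr rfl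
    intro k hk
    rw [Finset.mem_range] at hk
    have e : 2 * r - k + 1 = 2 * r + 1 - k := by omega
    rw [e]
  have f2 : ∏ k ∈ range (2 * r + 2), c (k + 1) = Pb := by
    rw [prod_fold_even (fun k => c (k + 1)), hPb]
    apply Finset.prod_congr rfl
    intro k hk
    rw [Finset.mem_range] at hk
    have e : 2 * r + 1 - k + 1 = 2 * r + 2 - k := by omega
    rw [e]
  have f3 : Pb = Pa * c 2 := by
    rw [← f2, show 2 * r + 2 = (2 * r + 1) + 1 by ring, Finset.prod_range_succ, f1,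
      show 2 * r + 1 + 1 = 2 * (r + 1) by ring, h2]
    linear_combination (Pa * c 2) * hsq
  have hc2 := hc 2 (by omega) (by omega)
  have hPa1 : Pa = 1 ∨ Pa = -1 := by
    rw [hPa]
    apply Finset.prod_induction _ (fun x : ℤ => x = 1 ∨ x = -1) (fun a b ha hb => pm a b ha hb) (Or.inl rfl)
    intro k hk
    rw [Finset.mem_range] at hk
    exact pm _ _ (hc _ (by omega) (by omega)) (hc _ (by omega) (by omega))
  rw [e1, A_odd, A_even, hsq, ← hSa, ← hSb]
  rw [f3] at hb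
  push_cast at hb
  obtain ⟨u, hu⟩ := ha
  obtain ⟨v, hv⟩ := hb
  have key : (4 : ℤ) ∣ Pa + Pa * c 2 - (1 + c 2) := by
    rcases hPa1 with h | h <;> rcases hc2 with h' | h' <;> rw [h, h'] <;> norm_num
  obtain ⟨w, hw⟩ := key
  refine ⟨w - u - v, ?_⟩
  linarith

/-- closed form modulo `8` -/
lemma P_mod (c : ℕ → ℤ) (h0 : c 0 = 0) (r : ℕ) (hc : ∀ k, 1 ≤ k → k ≤ 2 * r + 1 → c k = 1 ∨ c k = -1)
    (h2 : ∀ k, 1 ≤ k → k ≤ r → c (2 * k) = c 2 * c k) :
    (8 : ℤ) ∣ P c (2 * r + 1) - (2 * r * (r - 1) + 2 * r * c 2 + r) := by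
  induction r with
  | zero => simp [P, S, h0]
  | succ r ih =>
    have h1 := ih (fun k hk hk2 => hc k hk (by omega)) (fun k hk hk2 => h2 k hk (by omega))
    have h3 := step c h0 r (fun k hk hk2 => hc k hk (by omega)) (h2 (r + 1) (by omega) (by omega))
    obtain ⟨u, hu⟩ := h1
    obtain ⟨v, hv⟩ := h3
    refine ⟨u + v, ?_⟩
    rw [show 2 * (r + 1) + 1 = 2 * r + 3 by ring]
    push_cast
    linarith

/-- an odd square is `1` modulo `8` -/
lemma sq_mod (s : ℤ) (hs : Odd s) : (8 : ℤ) ∣ s ^ 2 - 1 := by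
  obtain ⟨k, rfl⟩ := hs
  have h : (2 : ℤ) ∣ k * (k + 1) := (Int.even_mul_succ_self k).two_dvd
  obtain ⟨t, ht⟩ := h
  refine ⟨t, ?_⟩
  linear_combination 4 * ht

/-- the sixteen divides -/
lemma sixteen (c : ℕ → ℤ) (h0 : c 0 = 0) (r : ℕ) (hc : ∀ k, 1 ≤ k → k ≤ 2 * r + 1 → c k = 1 ∨ c k = -1)
    (h2 : ∀ k, 1 ≤ k → k ≤ r → c (2 * k) = c 2 * c k)
    (hc2 : (Even r ∧ c 2 = -1) ∨ c 2 = 1) (s : ℤ) (hs : Odd s) :
    (16 : ℤ) ∣ 2 * (2 * r + 1) * P c (2 * r + 1) - 2 * r * s ^ 2 := by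
  obtain ⟨u, hu⟩ := P_mod c h0 r hc h2
  obtain ⟨v, hv⟩ := sq_mod s hs
  have hP : P c (2 * r + 1) = 8 * u + (2 * r * (r - 1) + 2 * r * c 2 + r) := by linarith
  have hS : s ^ 2 = 8 * v + 1 := by linarith
  rw [hP, hS]
  rcases hc2 with ⟨⟨t, ht⟩, h⟩ | h
  · rw [h, ht]
    push_cast
    refine ⟨(2 * (t + t) + 1) * u - (t + t) * v + (t * ((t + t) * (t + t) - (t + t) - 1)), ?_⟩
    ring
  · rw [h]
    have h3 : (2 : ℤ) ∣ (r : ℤ) * (r + 1) := (Int.even_mul_succ_self (r : ℤ)).two_dvd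
    obtain ⟨t, ht⟩ := h3
    refine ⟨(2 * r + 1) * u - r * v + r * t, ?_⟩
    linear_combination (8 * (r : ℤ)) * ht

end Pool.Agent.K6.H70.LD
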