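import Mathlib
import Pool.Agent.K6.H70.LD.Comb

set_option autoImplicit false

namespace Pool.Agent.K6.H70.LD

open Finset Pool.Agent.R945.LD

variable {p : ℕ} [Fact p.Prime]

/-- the character on natural numbers -/
noncomputable def cc (p : ℕ) [Fact p.Prime] (k : ℕ) : ℤ := q p (k : ZMod p)

lemma cc_zero : cc p 0 = 0 := by
  unfold cc; rw [Nat.cast_zero]; exact q_zero

lemma cc_pm {k : ℕ} (h1 : 1 ≤ k) (h2 : k < p) : cc p k = 1 ∨ cc p k = -1 := by
  have h : ((k : ℕ) : ZMod p) ≠ 0 := by
    intro h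
    rw [ZMod.natCast_eq_zero_iff] at h
    have := Nat.le_of_dvd (by omega) h
    omega
  exact mul_self_eq_one_iff.mp (q_sq h)

lemma cc_two_mul (k : ℕ) : cc p (2 * k) = cc p 2 * cc p k := by
  unfold cc
  push_cast
  exact q_mul _ _

/-- the convolution of the character with the odd sign function -/
noncomputable def g (p : ℕ) [Fact p.Prime] (m : ℕ) (a : ZMod p) : ℤ :=
  ∑ j : Fin m, (q p (a - J p j) - q p (a + J p j))

section three

variable (h3 : p % 4 = 3)

include h3

lemma g_even (m : ℕ) (a : ZMod p) : g p m (-a) = g p m a := by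
  unfold g
  apply Finset.sum_congr rfl
  intro j _
  have e1 : q p (-a - J p j) = - q p (a + J p j) := by
    rw [← q_odd h3]; congr 1; ring
  have e2 : q p (-a + J p j) = - q p (a - J p j) := by
    rw [← q_odd h3]; congr 1; ring
  rw [e1, e2]; ring

lemma g_zero (m : ℕ) : g p m 0 = -2 * ∑ j : Fin m, q p (J p j) := by
  unfold g
  rw [Finset.mul_sum]
  apply Finset.sum_congr rfl
  intro j _
  rw [zero_sub, zero_add, q_odd h3]; ring

omit h3 in
lemma g_sum {m : ℕ} (hp2 : p ≠ 2) : ∑ a : ZMod p, g p m a = 0 := by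
  unfold g
  rw [Finset.sum_comm]
  apply Finset.sum_eq_zero
  intro j _
  rw [Finset.sum_sub_distrib]
  have e1 : ∑ a : ZMod p, q p (a - J p j) = 0 := by
    rw [← q_sum hp2]
    exact Fintype.sum_equiv (Equiv.subRight (J p j)) _ _ (fun _ => rfl)
  have e2 : ∑ a : ZMod p, q p (a + J p j) = 0 := by
    rw [← q_sum hp2]
    exact Fintype.sum_equiv (Equiv.addRight (J p j)) _ _ (fun _ => rfl)
  rw [e1, e2]; ring

lemma g_half {m : ℕ} (hm : p = 2 * m + 1) : ∑ k : Fin m, g p m (J p k) = ∑ j : Fin m, q p (J p j) := by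
  have hp2 : p ≠ 2 := by omega
  have h := fold m hm (g p m)
  rw [g_sum hp2, g_zero h3] at h
  have e : ∀ k : Fin m, g p m (J p k) + g p m (-(J p k)) = 2 * g p m (J p k) := by
    intro k; rw [g_even h3]; ring
  rw [Finset.sum_congr rfl (fun k _ => e k), ← Finset.mul_sum] at h
  linarith

lemma B_g {m : ℕ} (hm : p = 2 * m + 1) (i : Fin m) :
    ∑ k : Fin m, (q p (J p i + J p k) + q p (J p i - J p k)) * g p m (J p k) =
      - (p : ℤ) + 2 * (∑ j : Fin m, q p (J p j)) * q p (J p i) := by
  have hp2 : p ≠ 2 := by omega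
  have h := fold m hm (fun a => q p (J p i + a) * g p m a)
  have e : ∀ k : Fin m, q p (J p i + J p k) * g p m (J p k) + q p (J p i + -(J p k)) * g p m (-(J p k)) =
      (q p (J p i + J p k) + q p (J p i - J p k)) * g p m (J p k) := by
    intro k; rw [g_even h3, ← sub_eq_add_neg]; ring
  rw [Finset.sum_congr rfl (fun k _ => e k)] at h
  rw [h]
  have e2 : ∑ a : ZMod p, q p (J p i + a) * g p m a = - (p : ℤ) := by
    unfold g
    simp_rw [Finset.mul_sum]
    rw [Finset.sum_comm]
    have e3 : ∀ j : Fin m, ∑ a : ZMod p, q p (J p i + a) * (q p (a - J p j) - q p (a + J p j)) =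
        - (if i = j then (p : ℤ) else 0) := by
      intro j
      have e4 : ∀ a : ZMod p, q p (J p i + a) * (q p (a - J p j) - q p (a + J p j)) =
          q p (J p i + a) * q p (-J p j + a) - q p (J p i + a) * q p (J p j + a) := by
        intro a
        rw [show a - J p j = -J p j + a by ring, show a + J p j = J p j + a by ring]; ring
      rw [Finset.sum_congr rfl (fun a _ => e4 a), Finset.sum_sub_distrib, corr2 hp2, corr2 hp2]
      have i2 : J p i - -J p j ≠ 0 := by rw [sub_neg_eq_add]; exact J_add_ne hm i j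
      have i1 : (J p i - J p j = 0) = (i = j) := propext (J_sub hm i j)
      rw [if_neg i2]
      simp only [i1]
      ring
    rw [Finset.sum_congr rfl (fun j _ => e3 j), Finset.sum_neg_distrib]
    simp
  rw [e2, g_zero h3, add_zero]
  ring

/-- the vector `v` with `B v = p` -/
lemma B_v {m : ℕ} (hm : p = 2 * m + 1) (i : Fin m) :
    ∑ k : Fin m, (q p (J p i + J p k) + q p (J p i - J p k)) * (-2 * (∑ j : Fin m, q p (J p j)) - g p m (J p k)) =
      (p : ℤ) := by
  have h1 := B_g h3 hm i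
  have h2 := sum_B hm (J p i)
  have e : ∀ k : Fin m, (q p (J p i + J p k) + q p (J p i - J p k)) *
      (-2 * (∑ j : Fin m, q p (J p j)) - g p m (J p k)) =
      (-2 * (∑ j : Fin m, q p (J p j))) * (q p (J p i + J p k) + q p (J p i - J p k)) -
      (q p (J p i + J p k) + q p (J p i - J p k)) * g p m (J p k) := by
    intro k; ring
  rw [Finset.sum_congr rfl (fun k _ => e k), Finset.sum_sub_distrib, ← Finset.mul_sum, h1, h2]
  ring

lemma sum_v {m : ℕ} (hm : p = 2 * m + 1) :
    ∑ k : Fin m, (-2 * (∑ j : Fin m, q p (J p j)) - g p m (J p k)) = - (p : ℤ) * ∑ j : Fin m, q p (J p j) := by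
  rw [Finset.sum_sub_distrib, g_half h3 hm]
  have hpm : (p : ℤ) = 2 * m + 1 := by exact_mod_cast hm
  simp
  rw [hpm]
  ring

/-- the values of `g` at `0, …, m` -/
lemma g_val {m : ℕ} (hm : p = 2 * m + 1) (k : ℕ) (hk : k ≤ m) :
    g p m (k : ZMod p) = S (cc p) k + S (cc p) (k - 1) - 2 * S (cc p) (m - k) := by
  have hR : ∀ a : ZMod p, g p m a = ∑ j ∈ range m, (q p (a - ((j : ZMod p) + 1)) - q p (a + ((j : ZMod p) + 1))) := by
    intro a
    unfold g J
    exact Fin.sum_univ_eq_sum_range (fun j => q p (a - ((j : ZMod p) + 1)) - q p (a + ((j : ZMod p) + 1))) m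
  induction k with
  | zero =>
    rw [Nat.cast_zero, g_zero h3]
    have e1 : S (cc p) 0 = 0 := by unfold S; simp [cc_zero]
    have e2 : S (cc p) m = ∑ j : Fin m, q p (J p j) := by
      unfold S
      rw [Finset.sum_range_succ', cc_zero, add_zero, ← Fin.sum_univ_eq_sum_range (fun j => cc p (j + 1))]
      apply Finset.sum_congr rfl
      intro j _
      unfold cc J
      push_cast
      rfl
    rw [Nat.zero_sub, Nat.sub_zero, e1, e2]
    ring
  | succ k ih =>
    have ih := ih (by omega)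
    have h1 : g p m ((k + 1 : ℕ) : ZMod p) = g p m (k : ZMod p) + cc p k + cc p (k + 1) + 2 * cc p (m - k) := by
      rw [hR, hR]
      have t1 := Finset.sum_range_sub (fun j => q p ((k : ZMod p) - j)) m
      have t2 := Finset.sum_range_sub (fun j => q p ((k : ZMod p) + 1 + j)) m
      have e1 : ∀ j ∈ range m, q p (((k + 1 : ℕ) : ZMod p) - ((j : ZMod p) + 1)) - q p (((k + 1 : ℕ) : ZMod p) + ((j : ZMod p) + 1)) =
          (q p ((k : ZMod p) - ((j : ZMod p) + 1)) - q p ((k : ZMod p) + ((j : ZMod p) + 1))) -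
          (q p ((k : ZMod p) - ((j + 1 : ℕ) : ZMod p)) - q p ((k : ZMod p) - (j : ZMod p))) -
          (q p ((k : ZMod p) + 1 + ((j + 1 : ℕ) : ZMod p)) - q p ((k : ZMod p) + 1 + (j : ZMod p))) := by
        intro j _
        have a1 : ((k + 1 : ℕ) : ZMod p) - ((j : ZMod p) + 1) = (k : ZMod p) - (j : ZMod p) := by push_cast; ring
        have a2 : ((k + 1 : ℕ) : ZMod p) + ((j : ZMod p) + 1) = (k : ZMod p) + 1 + ((j + 1 : ℕ) : ZMod p) := by push_cast; ring
        have a3 : (k : ZMod p) - ((j + 1 : ℕ) : ZMod p) = (k : ZMod p) - ((j : ZMod p) + 1) := by push_cast; ring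
        have a4 : (k : ZMod p) + 1 + (j : ZMod p) = (k : ZMod p) + ((j : ZMod p) + 1) := by ring
        rw [a1, a2, a3, a4]; ring
      rw [Finset.sum_congr rfl e1, Finset.sum_sub_distrib, Finset.sum_sub_distrib, t1, t2]
      have b1 : q p ((k : ZMod p) - (m : ZMod p)) = - cc p (m - k) := by
        unfold cc
        rw [← q_odd h3, Nat.cast_sub (by omega)]
        congr 1; ring
      have b2 : q p ((k : ZMod p) + 1 + (m : ZMod p)) = - cc p (m - k) := by
        rw [← b1]
        congr 1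
        have : ((2 * m + 1 : ℕ) : ZMod p) = 0 := by rw [← hm]; simp
        push_cast at this
        linear_combination this
      have b3 : q p ((k : ZMod p) - ((0 : ℕ) : ZMod p)) = cc p k := by
        unfold cc; simp
      have b4 : q p ((k : ZMod p) + 1 + ((0 : ℕ) : ZMod p)) = cc p (k + 1) := by
        unfold cc; simp
      rw [b1, b2, b3, b4]
      ring
    rw [h1, ih]
    have h2 : S (cc p) (k + 1) = S (cc p) k + cc p (k + 1) := S_succ _ _
    have h4 : S (cc p) k = S (cc p) (k - 1) + cc p k := by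
      rcases Nat.eq_zero_or_pos k with h | h
      · subst h; simp [cc_zero]
      · obtain ⟨t, rfl⟩ : ∃ t, k = t + 1 := ⟨k - 1, by omega⟩
        rw [S_succ]; simp
    have h5 : S (cc p) (m - k) = S (cc p) (m - (k + 1)) + cc p (m - k) := by
      obtain ⟨t, ht⟩ : ∃ t, m - k = t + 1 := ⟨m - k - 1, by omega⟩
      have ht2 : m - (k + 1) = t := by omega
      rw [ht, ht2, S_succ]
    rw [Nat.add_sub_cancel, h2]
    linarith

lemma sum_qg {m : ℕ} (hm : p = 2 * m + 1) :
    ∑ k : Fin m, q p (J p k) * g p m (J p k) = (∑ j : Fin m, q p (J p j)) ^ 2 - 2 * P (cc p) m := by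
  have e0 : ∀ k : Fin m, q p (J p k) * g p m (J p k) =
      (fun k : ℕ => cc p (k + 1) * g p m ((k + 1 : ℕ) : ZMod p)) k := by
    intro k
    unfold cc J
    push_cast
    rfl
  rw [Finset.sum_congr rfl (fun k _ => e0 k), Fin.sum_univ_eq_sum_range (fun k => cc p (k + 1) * g p m ((k + 1 : ℕ) : ZMod p)) m]
  have e2 : S (cc p) m = ∑ j : Fin m, q p (J p j) := by
    unfold S
    rw [Finset.sum_range_succ', cc_zero, add_zero, ← Fin.sum_univ_eq_sum_range (fun j => cc p (j + 1))]
    apply Finset.sum_congr rfl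
    intro j _
    unfold cc J
    push_cast
    rfl
  rw [← e2]
  have e1 : ∀ k ∈ range m, cc p (k + 1) * g p m ((k + 1 : ℕ) : ZMod p) =
      (S (cc p) (k + 1) ^ 2 - S (cc p) k ^ 2) - 2 * (cc p (k + 1) * S (cc p) (m - (k + 1))) := by
    intro k hk
    rw [Finset.mem_range] at hk
    rw [g_val h3 hm (k + 1) (by omega), Nat.add_sub_cancel, S_succ]
    ring
  rw [Finset.sum_congr rfl e1, Finset.sum_sub_distrib, ← Finset.mul_sum,
    Finset.sum_range_sub (fun k => S (cc p) k ^ 2) m]
  have e3 : S (cc p) 0 = 0 := by unfold S; simp [cc_zero]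
  rw [e3]
  unfold P
  ring

/-- the integer `K` -/
noncomputable def KK (p : ℕ) [Fact p.Prime] (m : ℕ) : ℤ :=
  2 * m * P (cc p) m - (m - 1) * (∑ j : Fin m, q p (J p j)) ^ 2

lemma KK_dvd {m : ℕ} (hm : p = 2 * m + 1) : (16 : ℤ) ∣ KK p m := by
  have hp : p.Prime := Fact.out
  have hp2 : p ≠ 2 := by omega
  obtain ⟨r, hr⟩ : ∃ r, m = 2 * r + 1 := ⟨m / 2, by omega⟩
  have hq2 : cc p 2 = if p % 8 = 7 then 1 else -1 := by
    show quadraticChar (ZMod p) ((2 : ℕ) : ZMod p) = _
    push_cast
    rw [quadraticChar_two (ringChar_ne hp2), ZMod.card, ZMod.χ₈_nat_eq_if_mod_eight, if_neg (by omega)]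
    by_cases h8 : p % 8 = 7
    · rw [if_pos (by omega), if_pos h8]
    · rw [if_neg (by omega), if_neg h8]
  have hodd : Odd (∑ j : Fin m, q p (J p j)) := by
    have hpar : (2 : ℤ) ∣ ∑ j : Fin m, q p (J p j) - m := by
      have : ∑ j : Fin m, q p (J p j) - m = ∑ j : Fin m, (q p (J p j) - 1) := by
        rw [Finset.sum_sub_distrib]; simp
      rw [this]
      apply Finset.dvd_sum
      intro j _
      rcases mul_self_eq_one_iff.mp (q_sq (J_ne hm j)) with h | h
      · rw [h]; norm_num
      · rw [h]; norm_num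
    obtain ⟨t, ht⟩ := hpar
    refine ⟨t + r, ?_⟩
    have : (m : ℤ) = 2 * r + 1 := by exact_mod_cast hr
    rw [this] at ht
    linarith
  have h := sixteen (cc p) cc_zero r (fun k hk1 hk2 => cc_pm hk1 (by omega)) (fun k _ _ => cc_two_mul k)
    (by
      rw [hq2]
      by_cases h8 : p % 8 = 7
      · right; rw [if_pos h8]
      · left
        rw [if_neg h8]
        refine ⟨?_, rfl⟩
        rw [Nat.even_iff]
        omega) _ hodd
  unfold KK
  have hm' : (m : ℤ) = 2 * r + 1 := by exact_mod_cast hr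
  rw [hr] at h ⊢
  push_cast at h ⊢
  convert h using 1
  ring

end three

end Pool.Agent.K6.H70.LD
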