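import Mathlib
import Pool.Agent.K6.H70.LD.Main

set_option autoImplicit false

namespace Pool.Agent.K6.H70.LD

open Finset Matrix Pool.Agent.R945.LD

variable {p : ℕ} [Fact p.Prime]

/-- the determinant with the rank two perturbation -/
theorem det_E (h3 : p % 4 = 3) {m : ℕ} (hm : p = 2 * m + 1) {R : Type*} [CommRing R] [Algebra ℚ R]
    (x y w : R) :
    (Matrix.of fun j k : Fin m => x + Bm p m R j k + xv p m R j * y
      + xv p m R j * xv p m R k * w).det =
    (Bm p m R).det * (1 - m * y - (∑ j, xv p m R j) * (w + x) +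
      algebraMap ℚ R ((KK p m : ℚ) / p) * w * x) := by
  have hpQ : (p : ℚ) ≠ 0 := by exact_mod_cast (Fact.out : p.Prime).ne_zero
  set H : ℤ := ∑ j : Fin m, q p (Pool.Agent.R945.LD.J p j) with hH
  set v : Fin m → ℤ := fun k => -2 * H - g p m (Pool.Agent.R945.LD.J p k) with hv
  set ip : R := algebraMap ℚ R (1 / (p : ℚ)) with hip
  have hipp : ip * (p : R) = 1 := by
    have h1 : (p : R) = algebraMap ℚ R (p : ℚ) := by simp
    rw [hip, h1, ← map_mul]
    rw [one_div, inv_mul_cancel₀ hpQ, map_one]
  have hxH : ∑ j, xv p m R j = (H : R) := by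
    rw [hH]; push_cast; rfl
  set V : Matrix (Fin m) (Fin 2) R := Matrix.of fun j i =>
    if i = 0 then ip * (v j : R) else -1 with hV
  set W : Matrix (Fin 2) (Fin m) R := Matrix.of fun i j => if i = 0 then x else y + w * xv p m R j with hW
  have hB1 : ∀ j : Fin m, ∑ k, Bm p m R j k = - xv p m R j := by
    intro j
    have := congrArg (Int.cast : ℤ → R) (sum_B hm (Pool.Agent.R945.LD.J p j))
    simp only [Bm, Matrix.of_apply, xv]
    push_cast at this ⊢
    exact this
  have hBv : ∀ j : Fin m, ∑ k, Bm p m R j k * (v k : R) = (p : R) := by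
    intro j
    have := congrArg (Int.cast : ℤ → R) (B_v h3 hm j)
    simp only [Bm, Matrix.of_apply, hv, hH]
    push_cast at this ⊢
    exact this
  have hsv : ∑ k : Fin m, (v k : R) = - (p : R) * (H : R) := by
    have := congrArg (Int.cast : ℤ → R) (sum_v h3 hm)
    simp only [hv, hH]
    push_cast at this ⊢
    exact this
  have hqv : ∑ k : Fin m, xv p m R k * (v k : R) = ((2 * P (cc p) m - 3 * H ^ 2 : ℤ) : R) := by
    have h1 := sum_qg h3 hm
    have h2 : ∑ k : Fin m, q p (Pool.Agent.R945.LD.J p k) * v k = 2 * P (cc p) m - 3 * H ^ 2 := by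
      have e : ∀ k : Fin m, q p (Pool.Agent.R945.LD.J p k) * v k =
          (-2 * H) * q p (Pool.Agent.R945.LD.J p k) -
          q p (Pool.Agent.R945.LD.J p k) * g p m (Pool.Agent.R945.LD.J p k) := by
        intro k; rw [hv]; ring
      rw [Finset.sum_congr rfl (fun k _ => e k), Finset.sum_sub_distrib, ← Finset.mul_sum, h1, ← hH]
      ring
    have := congrArg (Int.cast : ℤ → R) h2
    simp only [xv]
    push_cast at this ⊢
    exact this
  have hBV : ∀ j : Fin m, (Bm p m R * V) j 0 = 1 := by
    intro j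
    rw [Matrix.mul_apply, hV]
    simp only [Matrix.of_apply, if_true]
    have e : ∀ k, Bm p m R j k * (ip * (v k : R)) = ip * (Bm p m R j k * (v k : R)) := by intro k; ring
    rw [Finset.sum_congr rfl (fun k _ => e k), ← Finset.mul_sum, hBv, hipp]
  have hBV1 : ∀ j : Fin m, (Bm p m R * V) j 1 = xv p m R j := by
    intro j
    rw [Matrix.mul_apply, hV]
    simp only [Matrix.of_apply]
    have e : ∀ k, Bm p m R j k * (if (1 : Fin 2) = 0 then ip * (v k : R) else -1) = - Bm p m R j k := by
      intro k; simp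
    rw [Finset.sum_congr rfl (fun k _ => e k), Finset.sum_neg_distrib, hB1]
    ring
  have hM : (Matrix.of fun j k : Fin m => x + Bm p m R j k + xv p m R j * y
      + xv p m R j * xv p m R k * w) = Bm p m R * (1 + V * W) := by
    rw [Matrix.mul_add, Matrix.mul_one, ← Matrix.mul_assoc]
    ext j k
    rw [Matrix.add_apply, Matrix.mul_apply (M := Bm p m R * V), Fin.sum_univ_two, hBV, hBV1, hW]
    simp only [Matrix.of_apply, if_true]
    rw [if_neg (by decide)]
    ring
  have hWV : ((1 : Matrix (Fin 2) (Fin 2) R) + W * V) =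
      !![1 - x * (H : R), - m * x; - (y * (H : R)) + w * (ip * ((2 * P (cc p) m - 3 * H ^ 2 : ℤ) : R)),
        1 - m * y - (H : R) * w] := by
    ext i j
    fin_cases i <;> fin_cases j <;>
      simp only [Matrix.add_apply, Matrix.mul_apply, hV, hW, Matrix.of_apply, Fin.zero_eta, Fin.isValue,
        Matrix.cons_val', Matrix.cons_val_zero, Matrix.cons_val_one, if_true, Fin.mk_one,
        Matrix.cons_val_fin_one]
    · have e : ∀ k : Fin m, x * (ip * (v k : R)) = (x * ip) * (v k : R) := by intro k; ring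
      rw [Finset.sum_congr rfl (fun k _ => e k), ← Finset.mul_sum, hsv]
      simp only [Matrix.one_apply_eq]
      linear_combination (- x * (H : R)) * hipp
    · have e : ∀ k : Fin m, x * (if (1 : Fin 2) = 0 then ip * (v k : R) else -1) = - x := by
        intro k; simp
      rw [Finset.sum_congr rfl (fun k _ => e k)]
      simp
    · have e : ∀ k : Fin m, (if (1 : Fin 2) = 0 then x else y + w * xv p m R k) * (ip * (v k : R)) =
          (y * ip) * (v k : R) + (w * ip) * (xv p m R k * (v k : R)) := by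
        intro k; simp; ring
      rw [Finset.sum_congr rfl (fun k _ => e k), Finset.sum_add_distrib, ← Finset.mul_sum,
        ← Finset.mul_sum, hsv, hqv]
      have e2 : (1 : Matrix (Fin 2) (Fin 2) R) 1 0 = 0 := by simp
      rw [e2]
      linear_combination (- y * (H : R)) * hipp
    · have e : ∀ k : Fin m, (if (1 : Fin 2) = 0 then x else y + w * xv p m R k) *
          (if (1 : Fin 2) = 0 then ip * (v k : R) else -1) = - y - w * xv p m R k := by
        intro k; simp; ring
      rw [Finset.sum_congr rfl (fun k _ => e k), Finset.sum_sub_distrib, ← Finset.mul_sum, hxH]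
      simp
      ring
  have hKK : algebraMap ℚ R ((KK p m : ℚ) / p) = ip * (KK p m : R) := by
    have h1 : (KK p m : R) = algebraMap ℚ R (KK p m : ℚ) := by simp
    rw [hip, h1, ← map_mul]
    congr 1
    ring
  rw [hM, Matrix.det_mul, Matrix.det_one_add_mul_comm, hWV, Matrix.det_fin_two_of, hKK, hxH]
  have hKe : (KK p m : R) = ((2 * m * P (cc p) m - (m - 1) * H ^ 2 : ℤ) : R) := by
    unfold KK
    rfl
  have hpm : (p : R) = 2 * m + 1 := by
    have : (p : R) = ((2 * m + 1 : ℕ) : R) := by rw [← hm]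
    rw [this]; push_cast; ring
  rw [hKe]
  rw [hpm] at hipp
  push_cast
  linear_combination (-(Bm p m R).det * (w * x * (H : R) ^ 2)) * hipp

/-- Question 2, in terms of the half sum -/
theorem E_formula (h3 : p % 4 = 3) (h5 : 3 < p) {m : ℕ} (hm : p = 2 * m + 1) (h : ℕ)
    (hS : ∑ j, xv p m ℤ j = (2 - q p 2) * h) (hodd : Odd h) {R : Type*} [CommRing R] [Algebra ℚ R]
    (x y w : R) :
    (-1) ^ ((h + 1) / 2) * (Matrix.of fun j k : Fin m => x + Bm p m R j k + xv p m R j * y
      + xv p m R j * xv p m R k * w).det =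
    (p : R) ^ ((p - 3) / 4) * (m * y - 1 + (2 - (q p 2 : R)) * h * (w + x) -
      algebraMap ℚ R ((KK p m : ℚ) / p) * w * x) := by
  have hB : (Bm p m R).det = (-1) ^ ((h - 1) / 2) * (p : R) ^ ((p - 3) / 4) := by
    have hmap : (Bm p m ℤ).map (Int.castRingHom R) = Bm p m R := by
      ext i j; simp [Bm]
    have h2 := (Int.castRingHom R).map_det (Bm p m ℤ)
    rw [RingHom.mapMatrix_apply, hmap, det_B_three h3 hm (by omega) h hS] at h2
    rw [← h2]
    simp
  have hx : ∑ j, xv p m R j = (2 - (q p 2 : R)) * h := by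
    have := congrArg (Int.cast : ℤ → R) hS
    simp only [xv] at this ⊢
    push_cast at this ⊢
    exact this
  rw [det_E h3 hm, hB, hx]
  have hs : ((-1 : R)) ^ ((h + 1) / 2) * (-1) ^ ((h - 1) / 2) = -1 := by
    rw [← pow_add]
    obtain ⟨t, ht⟩ := hodd
    have : (h + 1) / 2 + (h - 1) / 2 = 2 * t + 1 := by omega
    rw [this, pow_succ, pow_mul]
    simp
  linear_combination ((p : R) ^ ((p - 3) / 4) * (1 - m * y - (2 - (q p 2 : R)) * h * (w + x) +
      algebraMap ℚ R ((KK p m : ℚ) / p) * w * x)) * hs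

end Pool.Agent.K6.H70.LD
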